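import Pool.Agent.W_448ft_h93.DtE

/-!
MP_448cb3_co, G2, case B, STEP 0 at the level 8: the window `j - 1` of the rows with three sites and the
pattern [DL], at least one end closed; the functional `⟨-1, a, 1, 2, 1, 1, 1, 6, 2⟩`.  helper22.
-/

set_option autoImplicit false

namespace Pool.Agent.GaussPoset.Wd

set_option linter.unusedSectionVars false

open Finset Win Win.I2 Win.Rc EK Win.Pn
open Pool.Agent.GaussPoset.Win.SO (F5 mem_F5 N1f N5f CQ envc)
open Pool.Agent.GaussPoset.Win.Pf (Flp)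

universe u

variable {P : Type u} [Fintype P] [PartialOrder P] [DecidableEq P] {r j i : ℕ}
  {t : Tops P} {lo hi : ℕ → ℕ} {e : ℕ → ℕ → P} {m : ℕ} {x : ℕ → P} {c : ℕ → ℤ} {β : ℤ}
  {S : Finset P} {p q w : P} {a : ℤ}

/-- the weights of step 0 at the level 8, with the weight `a` of (5,2) -/
def Wa (a : ℤ) : Wt := ⟨-1, a, 1, 2, 1, 1, 1, 6, 2⟩

/-- the contribution of the window `j - 1` -/
noncomputable def V1a (a : ℤ) (i : ℕ) (t : Tops P) : ℤ :=
  2 * own1 (Wa a) i t +
    ∑ p ∈ (PD P i).filter (fun p => (topOf p : Tops P) = t), shr (Wa a) i p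

lemma We_arith4 {z k f s n : ℤ} (ha : 7 ≤ a) (z0 : 0 ≤ z) (k0 : 0 ≤ k) (f0 : 0 ≤ f) (f2 : f ≤ 2)
    (zk : z + k ≤ 2) (hs : s ≤ 2 * z) (hn : n ≤ 4) :
    10 - 2 * a ≤ 2 * ((k - f) ^ 2 - 3 * (k - f) + 9 - a) + (z * (a + 1) - 4 * z * (k + n - 3) -
      2 * s + 4 * z * (k - f) - 4 * z) := by
  have z2 : z ≤ 2 := by linarith
  have k2 : k ≤ 2 := by linarith
  interval_cases z <;> interval_cases k <;> interval_cases f <;> linarith

lemma We_arith3 {z k f s n : ℤ} (ha : 7 ≤ a) (z0 : 0 ≤ z) (k0 : 0 ≤ k) (f0 : 0 ≤ f) (f2 : f ≤ 2)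
    (zk : z + k ≤ 2) (hs : s ≤ 2 * z) (hn : n ≤ 4) :
    -4 ≤ 2 * ((1 + (k - f)) ^ 2 - (1 + (k - f))) + (z * (a + 1) - 4 * z * (k + n - 3) - 2 * s +
      4 * z * (1 + (k - f))) := by
  have z2 : z ≤ 2 := by linarith
  have k2 : k ≤ 2 := by linarith
  interval_cases z <;> interval_cases k <;> interval_cases f <;> linarith

lemma We_arithF {z k f s : ℤ} (ha : 7 ≤ a) (z0 : 0 ≤ z) (k0 : 0 ≤ k) (f0 : 0 ≤ f) (f2 : f ≤ 2)
    (zk : z + k ≤ 2) (hs : s ≤ 2 * z) :
    14 - 2 * a ≤ 2 * ((k - f) ^ 2 - 3 * (k - f) + 7 - a + 2 * (k + f)) + (z * (a + 1) -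
      4 * z * (k + 1) - 2 * s + 4 * z * (1 + (k - f)) - 4 * z) := by
  have z2 : z ≤ 2 := by linarith
  have k2 : k ≤ 2 := by linarith
  interval_cases z <;> interval_cases k <;> interval_cases f <;> linarith

section dl

variable (h : NJ P r j) (hij : i + 1 = j) (hi1 : 1 ≤ i) (B : RowB P j t 2 x c β)
  (c0 : c 0 = 1) (c1 : c 1 = -1)
include h hij hi1 B c0 c1

/-- BOTH ENDS CLOSED -/
theorem NJ.we_four (ha : 7 ≤ a) (a0 : (uc (x 0)).card = 2) (a2 : (uc (x 2)).card = 2) :
    10 - 2 * a ≤ V1a a i t := by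
  classical
  have H := h.g.H
  have a1 := h.dl_mid hij hi1 B
  have hst := h.dl_st hij hi1 B
  rw [a0, a2] at hst
  have h4 : 4 ≤ (st i (SS i t)).card := by omega
  have hc : ∀ k, 2 ≤ k → k < 2 → c k = 0 := fun k h1 h2 => absurd h1 (by omega)
  have hF : F5 i (SS i t) = ∅ := Pn.nj_F5_three h hij hi1 t (by omega)
  -- the closed pair
  have hbe := (h.vals_closed hij hi1 B le_rfl h4 c0 c1 hc a0).al.2
  have hCQ : (CQ i (SS i t)).card = 1 := by
    have h1 := Pn.nj_be5_CQ h hij hi1 t hF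
    rw [hbe] at h1
    have : ((CQ i (SS i t)).card : ℤ) = 1 := by linarith
    exact_mod_cast this
  have hcq : 4 ≤ cqs i (SS i t) := by
    unfold cqs
    have h1 : ∀ w ∈ CQ i (SS i t), (4 : ℤ) ≤ envc i (SS i t) w := by
      intro w hw
      have := Pn.nj_env_ge h hij hi1 t h4 hw
      have h2 : (0 : ℤ) ≤ ((Win.SO.chc i (SS i t) w).card : ℤ) := by positivity
      linarith
    have h2 := sum_le_sum h1
    rw [sum_const, hCQ, one_smul] at h2
    exact h2
  have hn5 : n5 i (SS i t) = 0 := by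
    unfold n5
    rw [W1.n5f_small h hij hi1 t (by omega), card_empty]
    rfl
  have hn1 : 0 ≤ n1 i (SS i t) := by
    unfold n1
    positivity
  have hE : (0 : ℤ) ≤ ((Rd.ETs i (SS i t)).card : ℤ) := by positivity
  unfold V1a
  rcases h.dl_sum hij hi1 B c0 (fun p => shr (Wa a) i p) with ⟨hno, hsum⟩ |
    ⟨p, hp, hpt, hup, -, hsum⟩
  · rw [hsum]
    obtain ⟨-, f1, f2⟩ := h.dt_no_pn hij hi1 t hno
    have e1 := h.own1_closed hij hi1 B (Wa a) le_rfl h4 c0 c1 hc a0 (q := 2) le_rfl (by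
      rintro z (hz | hz)
      · rw [f1] at hz
        exact absurd hz (notMem_empty _)
      · rw [f2] at hz
        exact absurd hz (notMem_empty _))
    have hfa : fa i (SS i t) = 0 := by
      unfold fa
      rw [f1, f2, card_empty]
      norm_num
    have hfm : fm i (SS i t) x 0 = 0 := by
      unfold fm
      rw [f1, f2, filter_empty, card_empty]
      norm_num
    rw [hfa, hfm, hn5, if_neg (by norm_num)] at e1
    unfold Wa at e1 ⊢
    dsimp only at e1 ⊢
    rw [e1]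
    linarith
  · rw [hsum]
    obtain ⟨q, u, hq, hqU, hdq, hdu, h0, hFL, hFU⟩ := h.dt_mat_pn hij hi1 t hF hp hpt hup
    have hnn := h.dl_nn hij hi1 B hp hup hq hqU hdq hdu
    have e1 := h.own1_closed hij hi1 B (Wa a) le_rfl h4 c0 c1 hc a0 (q := 2) le_rfl h0
    have hk := h.dt_fl_kc hij hi1 hp hpt hFL
    have hfu : (FU' i (SS i t)).card ≤ 2 := (card_le_card hFU).trans (uc_card_le H q)
    have hfa : fa i (SS i t) = kc p - (FU' i (SS i t)).card := by
      unfold fa
      rw [hk]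
    have hmt : ¬ Disjoint (uc (x 2)) (se x 0) := by
      rw [disjoint_comm]
      exact (h.meet_se hij hi1 B (l := 0) (k := 2) (by omega) le_rfl).2 ⟨by omega, by omega⟩
    have hfm : fm i (SS i t) x 0 = fa i (SS i t) := by
      unfold fm fa
      rw [filter_true_of_mem, filter_true_of_mem]
      · intro z hz
        rw [h0 z (Or.inr hz)]
        exact hmt
      · intro z hz
        rw [h0 z (Or.inl hz)]
        exact hmt
    have e2 := h.shr_row hij hi1 B (Wa a) h4 (k := 2) le_rfl hup hp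
    rw [near01 x 2 hc, h.dl_Ed hij hi1 B a1, if_pos a0, if_pos a2, if_pos (by simp),
      if_pos (by simp), c0, c1] at e2
    have hEt : (((Et x 2 c).filter (fun l => l ≤ 2 + 1 ∧ 2 ≤ l + 2)).card : ℤ) = 1 := by
      rw [h.dl_Et hij hi1 B c0 c1 a0]
      have : ({0} : Finset ℕ).filter (fun l => l ≤ 2 + 1 ∧ 2 ≤ l + 2) = {0} := by decide
      rw [this, card_singleton]
      norm_num
    rw [hEt] at e2
    obtain ⟨b1, b2, b3, b4, b5⟩ := h.dt_ch_bd hij hi1 hp
    rw [hfm, hn5, if_neg (by norm_num), hfa] at e1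
    rw [hfa] at e2
    have hfu' : ((FU' i (SS i t)).card : ℤ) ≤ 2 := by exact_mod_cast hfu
    have hfu0 : (0 : ℤ) ≤ ((FU' i (SS i t)).card : ℤ) := by positivity
    have key := We_arith4 ha b1 b2 hfu0 hfu' b3 b5 hnn
    unfold Wa at e1 e2 ⊢
    dsimp only at e1 e2 ⊢
    rw [e1, e2]
    linarith

/-- CLOSED AT THE DOUBLED END -/
theorem NJ.we_left (a0 : (uc (x 0)).card = 2) (a2 : (uc (x 2)).card = 1) :
    10 - 2 * a ≤ V1a a i t := by
  classical
  have a1 := h.dl_mid hij hi1 B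
  have hst := h.dl_st hij hi1 B
  rw [a0, a2] at hst
  have h3 : (st i (SS i t)).card ≤ 3 := by omega
  have hc : ∀ k, 2 ≤ k → k < 2 → c k = 0 := fun k h1 h2 => absurd h1 (by omega)
  unfold V1a
  rcases h.dl_sum hij hi1 B c0 (fun p => shr (Wa a) i p) with ⟨hno, hsum⟩ | ⟨p, -, -, -, h2, -⟩
  · rw [hsum]
    obtain ⟨hF, f1, f2⟩ := h.dt_no_pn hij hi1 t hno
    have hEd : Ed x 2 = {0} := by
      rw [h.dl_Ed hij hi1 B a1, if_pos a0, if_neg (by omega), union_empty]
    have hEt := h.dl_Et hij hi1 B c0 c1 a0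
    have hbal := h.dl_bal hij hi1 B
    rw [hEd, sum_singleton, c0] at hbal
    have htw := h.dl_tws hij hi1 B
    rw [hEt, card_singleton] at htw
    have e3 := Pn.nj_al3 h hij hi1 t hF
    rw [f1, f2, card_empty] at e3
    obtain ⟨e5, e8, e10⟩ := W1.vals_small h hij hi1 t h3
    rw [hF, card_empty, htw] at e5 e8 e10
    have e6 := Pn.nj_Q6 h hij hi1 t hF
    rw [h.QQ01_none hij hi1 B hc f1 f2, hEd, if_pos (by simp), if_neg (by simp), c0] at e6
    have hs : 0 ≤ ∑ w ∈ CQ i (SS i t), envc i (SS i t) w :=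
      sum_nonneg fun w hw => h.dt_env_nn hij hi1 t hw
    have hn1 : (0 : ℤ) ≤ ((N1f i (SS i t)).card : ℤ) := by positivity
    have hn5 : (0 : ℤ) ≤ ((N5f i (SS i t)).card : ℤ) := by positivity
    have g3 : A3 i t = -1 := by
      unfold A3
      rw [e3]
      push_cast
      linarith
    have g5 : B5 i t = -1 := by
      unfold B5
      rw [e5]
      norm_num
    have g6 : 1 ≤ C6 i t := by
      unfold C6
      rw [e6]
      linarith
    have g8 : C8 i t = 1 := by
      unfold C8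
      rw [e8]
      unfold A3 at g3
      rw [g3]
      norm_num
    have g10 : C10 i t = 1 := by
      unfold C10
      rw [e10]
      norm_num
    unfold own1 Wa
    dsimp only
    rw [g3, g5, g8, g10]
    linarith
  · omega

/-- closed at the other end: the values without the shares -/
lemma NJ.we_rvals (a0 : (uc (x 0)).card = 1) (a2 : (uc (x 2)).card = 2)
    (hF : F5 i (SS i t) = ∅)
    (h0 : ∀ z, z ∈ FL i (SS i t) ∨ z ∈ FU' i (SS i t) → sit i z = uc (x 2)) :
    (1 + fa i (SS i t)) ^ 2 - (1 + fa i (SS i t)) ≤ own1 (Wa a) i t := by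
  classical
  have a1 := h.dl_mid hij hi1 B
  have hst := h.dl_st hij hi1 B
  rw [a0, a2] at hst
  have hc : ∀ k, 2 ≤ k → k < 2 → c k = 0 := fun k h1 h2 => absurd h1 (by omega)
  have hEd : Ed x 2 = {1} := by
    rw [h.dl_Ed hij hi1 B a1, if_neg (by omega), if_pos a2, empty_union]
  have hEt := h.dl_Et' hij hi1 B c0 c1 (by omega)
  have hbal := h.dl_bal hij hi1 B
  rw [hEd, sum_singleton, c1] at hbal
  have htw := h.dl_tws hij hi1 B
  rw [hEt, card_empty] at htw
  have htw' : Tws i (SS i t) = ∅ := by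
    rw [← card_eq_zero]
    exact_mod_cast htw
  have e3 := Pn.nj_al3 h hij hi1 t hF
  obtain ⟨-, e5, e6, e8, e10⟩ := W1.vals_open h hij hi1 t htw' hF
  rw [W1.n5f_small h hij hi1 t (by omega), card_empty] at e6 e10
  rw [h.QQ01_pend hij hi1 B hc (q := 2) le_rfl h0, hEd, if_neg (by simp), if_pos (by simp),
    if_neg (by simp), if_pos (by simp), c1] at e6
  have hn1 : (0 : ℤ) ≤ ((N1f i (SS i t)).card : ℤ) := by positivity
  have g3 : A3 i t = 1 + fa i (SS i t) := by
    unfold A3 fa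
    rw [e3]
    linarith
  have g5 : B5 i t = 0 := e5
  have g6 : (1 + fa i (SS i t)) ^ 2 ≤ C6 i t := by
    unfold C6
    rw [e6]
    push_cast
    nlinarith
  have g8 : C8 i t = 0 := e8
  have g10 : C10 i t = 0 := by
    unfold C10
    rw [e10]
    norm_num
  unfold own1 Wa
  dsimp only
  rw [g3, g5, g8, g10]
  linarith

/-- CLOSED AT THE OTHER END, no flip -/
theorem NJ.we_right (ha : 7 ≤ a) (a0 : (uc (x 0)).card = 1) (a2 : (uc (x 2)).card = 2)
    (hF : F5 i (SS i t) = ∅) : -4 ≤ V1a a i t := by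
  classical
  have H := h.g.H
  have a1 := h.dl_mid hij hi1 B
  have hEd : Ed x 2 = {1} := by
    rw [h.dl_Ed hij hi1 B a1, if_neg (by omega), if_pos a2, empty_union]
  have hEt := h.dl_Et' hij hi1 B c0 c1 (by omega)
  unfold V1a
  rcases h.dl_sum hij hi1 B c0 (fun p => shr (Wa a) i p) with ⟨hno, hsum⟩ |
    ⟨p, hp, hpt, hup, -, hsum⟩
  · rw [hsum]
    obtain ⟨-, f1, f2⟩ := h.dt_no_pn hij hi1 t hno
    have e1 := h.we_rvals (a := a) hij hi1 B c0 c1 a0 a2 hF (by
      rintro z (hz | hz)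
      · rw [f1] at hz
        exact absurd hz (notMem_empty _)
      · rw [f2] at hz
        exact absurd hz (notMem_empty _))
    have hfa : fa i (SS i t) = 0 := by
      unfold fa
      rw [f1, f2, card_empty]
      norm_num
    rw [hfa] at e1
    linarith
  · rw [hsum]
    obtain ⟨q, u, hq, hqU, hdq, hdu, h0, hFL, hFU⟩ := h.dt_mat_pn hij hi1 t hF hp hpt hup
    have hnn := h.dl_nn hij hi1 B hp hup hq hqU hdq hdu
    have e1 := h.we_rvals (a := a) hij hi1 B c0 c1 a0 a2 hF h0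
    have hk := h.dt_fl_kc hij hi1 hp hpt hFL
    have hfu : (FU' i (SS i t)).card ≤ 2 := (card_le_card hFU).trans (uc_card_le H q)
    have hfa : fa i (SS i t) = kc p - (FU' i (SS i t)).card := by
      unfold fa
      rw [hk]
    have hsit : sit i p = uc (x 2) := Pn.sit_PDs H hp hup
    have e5 := Pn.nj_net5 h hij hi1 hp (by rw [hpt]; exact hF)
    have e7 := Pn.nj_net7 h hij hi1 hp
    rw [hpt] at e5 e7
    have hb := h.bal_test hij hi1 B (fun K => ¬ Disjoint K (sit i p))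
    have ht := h.tws_test hij hi1 B (fun K => ¬ Disjoint K (sit i p))
    rw [hEd] at hb
    rw [hEt, filter_empty, card_empty] at ht
    have hmt : ¬ Disjoint (se x 1) (sit i p) := by
      rw [hsit]
      exact (h.meet_se hij hi1 B (l := 1) (k := 2) (by omega) le_rfl).2 ⟨by omega, by omega⟩
    rw [filter_true_of_mem (s := ({1} : Finset ℕ)) (by
      intro l hl
      rw [mem_singleton] at hl
      rw [hl]
      exact hmt), sum_singleton, c1] at hb
    have e5' : Pn.rho i (topOf : P → Tops P) 5 p - A3 i t = -1 - fa i (SS i t) := by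
      unfold A3 fa
      rw [e5]
      linarith
    have e7' : Pn.rho i (topOf : P → Tops P) 7 p - B5 i t = 0 := by
      unfold B5
      rw [e7, ht, hF, card_empty]
      norm_num
    obtain ⟨b1, b2, b3, b4, b5⟩ := h.dt_ch_bd hij hi1 hp
    have e2 : shr (Wa a) i p = zc i (topOf : P → Tops P) p * (a + 1) -
        4 * zc i (topOf : P → Tops P) p * (kc p + nn i p - 3) -
        2 * ∑ z ∈ zs i (topOf : P → Tops P) p, kc z +
        4 * zc i (topOf : P → Tops P) p * (1 + fa i (SS i t)) := by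
      unfold shr
      rw [hpt, e5', e7']
      unfold Wa
      dsimp only
      ring
    have hfu' : ((FU' i (SS i t)).card : ℤ) ≤ 2 := by exact_mod_cast hfu
    have hfu0 : (0 : ℤ) ≤ ((FU' i (SS i t)).card : ℤ) := by positivity
    have key := We_arith3 ha b1 b2 hfu0 hfu' b3 b5 hnn
    rw [hfa] at e1 e2
    rw [e2]
    linarith

/-- CLOSED AT THE OTHER END, a flip -/
theorem NJ.we_flip (ha : 7 ≤ a) (a0 : (uc (x 0)).card = 1) (a2 : (uc (x 2)).card = 2)
    (hF : F5 i (SS i t) ≠ ∅) : 14 - 2 * a ≤ V1a a i t := by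
  classical
  have H := h.g.H
  have a1 := h.dl_mid hij hi1 B
  obtain ⟨⟨p, q⟩, hpq⟩ := nonempty_iff_ne_empty.2 hF
  obtain ⟨y, u, z', s, b, F⟩ := Pf.nj_flp h hij hi1 t hpq
  obtain ⟨f1, f2, f3, f4, -⟩ := mem_F5.1 hpq
  have hp : p ∈ PD P i := f2
  have hpt : (topOf p : Tops P) = t := by
    have l := (mem_PD.1 hp).1
    have hz : p ∈ SS i t := f1
    rw [h.mem (by omega) t (by omega)] at hz
    exact Subtype.ext (Hul.top_unique (h.nj (by omega)) (topOf p).2 t.2 (le_topOf p) hz)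
  obtain ⟨hup, -⟩ := h.dl_pd hij hi1 B c0 hp hpt
  have hy : y = x 2 := by
    have h1 := F.cp
    rw [hup] at h1
    exact (singleton_injective h1).symm
  obtain ⟨sa, sb⟩ := h.dl_Sg hij hi1 B F hy a0
  have hsum : ∑ p ∈ (PD P i).filter (fun p => (topOf p : Tops P) = t), shr (Wa a) i p =
      shr (Wa a) i p := by
    rcases h.dl_sum hij hi1 B c0 (fun p => shr (Wa a) i p) with ⟨hno, -⟩ |
      ⟨p', hp', hpt', -, -, hsum⟩
    · exact absurd hpt (hno p hp)
    · rw [hsum, Pn.nj_hone h hij hi1 p' hp' p hp (hpt'.trans hpt.symm)]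
  unfold V1a
  rw [hsum]
  -- the values
  have hbal := h.dl_bal hij hi1 B
  have hEd : Ed x 2 = {1} := by
    rw [h.dl_Ed hij hi1 B a1, if_neg (by omega), if_pos a2, empty_union]
  rw [hEd, sum_singleton, c1] at hbal
  have hpC : p ∈ SS i t := f1
  obtain ⟨psi, hM⟩ := good_mat h.g.H (h.g.good i (by omega))
  have Q := Pf.nj_pso h hij hi1 hM t
  have hFL := Pf.FL_eq Q F
  have hFUe := Pf.FU_eq Q F
  have hkc : ((FL i (SS i t)).card : ℤ) = kc p := by
    rw [hFL, Pf.nj_kc h hij hi1 t hpC (mem_PD.1 hp).1]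
  have hfu : (FU' i (SS i t)).card ≤ 2 := by
    have h1 : FU' i (SS i t) ⊆ uc q := by
      intro w hw
      rw [hFUe, mem_FUp] at hw
      rw [mem_uc, ← mem_dc, hw.2]
      exact mem_singleton_self q
    exact (card_le_card h1).trans (uc_card_le H q)
  have e3 := Pf.nj_flip_al3 h hij hi1 t F
  have g3 : A3 i t = kc p - (FU' i (SS i t)).card := by
    unfold A3
    rw [e3, sa, sb, hkc]
    push_cast
    linarith
  have e1 := Pf.nj_flip_own h hij hi1 (Wa a) t F
  rw [own_eq] at e1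
  have e1' : own1 (Wa a) i t = (Wa a).a3 * A3 i t - (Wa a).a5 + (Wa a).a6 * (A3 i t ^ 2 + 4 +
      2 * ((N1f i (SS i t)).card + (FL i (SS i t)).card + (FU' i (SS i t)).card +
          (Pf.Sg i (SS i t) z').card + (Pf.Sg i (SS i t) b).card)) - (Wa a).a8 * A3 i t +
        (Wa a).a10 := by
    unfold own2 at e1
    linarith
  have hn1 : (0 : ℤ) ≤ ((N1f i (SS i t)).card : ℤ) := by positivity
  have F' : Flp i (SS i (topOf p)) p y q u z' s b := by rw [hpt]; exact F
  have e2 := Pf.nj_flip_shr h hij hi1 (Wa a) F'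
  rw [hpt, sa, hkc, g3] at e2
  rw [sa, sb, hkc, g3] at e1'
  obtain ⟨b1, b2, b3, b4, b5⟩ := h.dt_ch_bd hij hi1 hp
  have hfu' : ((FU' i (SS i t)).card : ℤ) ≤ 2 := by exact_mod_cast hfu
  have hfu0 : (0 : ℤ) ≤ ((FU' i (SS i t)).card : ℤ) := by positivity
  have key := We_arithF ha b1 b2 hfu0 hfu' b3 b5
  unfold Wa at e1' e2 ⊢
  dsimp only at e1' e2 ⊢
  push_cast at e1' e2
  rw [e1', e2]
  linarith

/-- THE WINDOW `j - 1` OF THE PATTERN [DL] WITH THREE SITES, at least one end closed -/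
theorem NJ.we_closed (ha : 7 ≤ a) (hu : ¬ ((uc (x 0)).card = 1 ∧ (uc (x 2)).card = 1)) :
    10 - 2 * a ≤ V1a a i t := by
  obtain ⟨-, -, hk⟩ := h.inner hij hi1 B
  rcases hk 0 (by omega) with h0 | h0
  · have a2 : (uc (x 2)).card = 2 := by
      rcases hk 2 (by omega) with h2 | h2
      · exact absurd ⟨h0, h2⟩ hu
      · exact h2
    by_cases hF : F5 i (SS i t) = ∅
    · have := h.we_right hij hi1 B c0 c1 ha h0 a2 hF
      linarith
    · have := h.we_flip hij hi1 B c0 c1 ha h0 a2 hF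
      linarith
  · rcases hk 2 (by omega) with h2 | h2
    · exact h.we_left hij hi1 B c0 c1 h0 h2
    · exact h.we_four hij hi1 B c0 c1 ha h0 h2

end dl

end Pool.Agent.GaussPoset.Wd
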