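import Pool.Agent.W_448e_h22.WeA
import Pool.Agent.W_448s7s_h5.TwE

/-!
MP_448cb3_co, G2, case B, STEP 0 at the level 8: the window `j - 1` of the rows with three sites and both
ends open; the functional `⟨-1, a, 1, 2, 1, 1, 1, 6, 2⟩`.  helper22.
-/

set_option autoImplicit false

namespace Pool.Agent.GaussPoset.Wd

set_option linter.unusedSectionVars false

open Finset Win Win.I2 Win.Rc EK Win.Pn
open Pool.Agent.GaussPoset.Win.SO (F5 mem_F5 N1f N5f CQ envc)

universe u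

variable {P : Type u} [Fintype P] [PartialOrder P] [DecidableEq P] {r j i : ℕ}
  {t : Tops P} {lo hi : ℕ → ℕ} {e : ℕ → ℕ → P} {x : ℕ → P} {c : ℕ → ℤ} {β : ℤ}
  {p q w : P} {a : ℤ}

lemma We_arith2 {z k f n s : ℤ} (ha : 7 ≤ a) (z0 : 0 ≤ z) (k0 : 0 ≤ k) (zk : z + k ≤ 2)
    (f0 : 0 ≤ f) (f1 : f ≤ 1) (hn : n ≤ 4) (hs : s ≤ 2 * z) :
    -4 ≤ 2 * ((k - f) ^ 2 - (k - f)) + (z * (a + 1) - 4 * z * (k + n - 3) - 2 * s +
      4 * z * (k - f)) := by
  have z2 : z ≤ 2 := by linarith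
  have k2 : k ≤ 2 := by linarith
  interval_cases z <;> interval_cases k <;> interval_cases f <;> linarith

lemma We_arith2' {z k n s : ℤ} (ha : 7 ≤ a) (z0 : 0 ≤ z) (k0 : 0 ≤ k) (zk : z + k ≤ 2)
    (hn : n ≤ 4) (hs : s ≤ 2 * z) :
    4 * (2 - z - k) ≤ 2 * ((k - 1) ^ 2 - (k - 1)) + (z * (a + 1) - 4 * z * (k + n - 3) - 2 * s +
      4 * z * (k - 1)) + 4 := by
  have z2 : z ≤ 2 := by linarith
  have k2 : k ≤ 2 := by linarith
  interval_cases z <;> interval_cases k <;> linarith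

section nj

variable (h : NJ P r j) (hij : i + 1 = j) (hi1 : 1 ≤ i)
include h hij hi1

/-- one element above an upper pendant, if the levels are narrow -/
lemma NJ.we_FU (C : Cp.Comp j (t : P) lo hi e) (hn : ∀ k, k < i → lo k = hi k) (hi3 : 3 ≤ i)
    (hp : p ∈ PD P i) (ht : topOf p = t) : (FU' i (SS i t)).card = 1 := by
  classical
  have H := h.g.H
  refine le_antisymm (Tw.two_FU h hij hi1 C hn) ?_
  obtain ⟨u, hu, hut⟩ := Tw.pu_of_pd h hij hi1 hp ht
  have lu := (mem_PU.1 hu).1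
  have hr := h.hr
  have h1 := C.lo_le (i - 3) (by omega)
  have lw := C.lev_e (i - 3) (lo (i - 3)) (by omega) le_rfl h1
  have wt := C.le_t (i - 3) (lo (i - 3)) (by omega) le_rfl h1
  obtain ⟨w, hw⟩ : ∃ w, w = e (i - 3) (lo (i - 3)) := ⟨_, rfl⟩
  rw [← hw] at lw wt
  obtain ⟨v, hv⟩ := dc_nonempty H (x := w) (by omega)
  have hd : dc w = {u} := by
    refine eq_singleton_iff_unique_mem.2 ⟨?_, ?_⟩
    · have : v = u := by
        have lv := lev_dc H hv
        exact Tw.narrow h hij hi1 C (k := i - 2) (by omega) (hn _ (by omega))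
          ((mem_dc.1 hv).le.trans wt) hut (by omega) (by omega)
      rwa [this] at hv
    · intro v' hv'
      have lv := lev_dc H hv'
      exact Tw.narrow h hij hi1 C (k := i - 2) (by omega) (hn _ (by omega))
        ((mem_dc.1 hv').le.trans wt) hut (by omega) (by omega)
  refine card_pos.2 ⟨w, mem_FU'.2 ⟨(h.mem (by omega) t (by omega)).2 wt, u, hu, hd⟩⟩

/-- the window `j - 1` of a part with two sites: the values -/
theorem NJ.we_two (B : RowB P j t 2 x c β) (C : Cp.Comp j (t : P) lo hi e)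
    (h2 : (st i (SS i t)).card ≤ 2)
    (hn : ∀ p ∈ PD P i, topOf p = t → ∀ k, k < i → lo k = hi k) :
    ((∀ p ∈ PD P i, (topOf p : Tops P) ≠ t) ∧ 0 ≤ V1a a i t) ∨
      ∃ p ∈ PD P i, (topOf p : Tops P) = t ∧ nn i p ≤ 4 ∧ (FU' i (SS i t)).card ≤ 1 ∧
        (3 ≤ i → (FU' i (SS i t)).card = 1) ∧
        V1a a i t = 2 * ((kc p - (FU' i (SS i t)).card) ^ 2 - (kc p - (FU' i (SS i t)).card)) +
          (zc i (topOf : P → Tops P) p * (a + 1) -
            4 * zc i (topOf : P → Tops P) p * (kc p + nn i p - 3) -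
            2 * ∑ z ∈ zs i (topOf : P → Tops P) p, kc z +
            4 * zc i (topOf : P → Tops P) p * (kc p - (FU' i (SS i t)).card)) := by
  classical
  obtain ⟨v5, v6, v8, v10⟩ := Tw.two_vals h hij hi1 t h2
  have v3 := Tw.two_A3 h hij hi1 t h2
  have e1 : own1 (Wa a) i t = A3 i t ^ 2 - A3 i t := by
    unfold own1 Wa
    rw [v5, v6, v8, v10]
    ring
  have e0 : V1a a i t = 2 * own1 (Wa a) i t +
      ∑ p ∈ (PD P i).filter (fun p => (topOf p : Tops P) = t), shr (Wa a) i p := rfl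
  rw [e1] at e0
  by_cases hE : (PD P i).filter (fun p => (topOf p : Tops P) = t) = ∅
  · left
    refine ⟨fun p hp ht => ?_, ?_⟩
    · have : p ∈ (PD P i).filter (fun p => (topOf p : Tops P) = t) := mem_filter.2 ⟨hp, ht⟩
      rw [hE] at this
      exact notMem_empty _ this
    · rw [hE, Finset.sum_empty, add_zero] at e0
      have := W4.sq_sub_nonneg (A3 i t)
      linarith
  · right
    obtain ⟨p, hp⟩ := nonempty_iff_ne_empty.2 hE
    have hE1 : (PD P i).filter (fun p => (topOf p : Tops P) = t) = {p} := by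
      refine eq_singleton_iff_unique_mem.2 ⟨hp, fun q hq => ?_⟩
      rw [mem_filter] at hp hq
      exact nj_hone h hij hi1 q hq.1 p hp.1 (hq.2.trans hp.2.symm)
    rw [hE1, sum_singleton] at e0
    obtain ⟨hp1, hp2⟩ := mem_filter.1 hp
    have hw := hn p hp1 hp2
    obtain ⟨r5, r7⟩ := Tw.two_rho h hij hi1 (p := p) (by rw [hp2]; exact h2) hp1
    have f1 := Tw.two_FU h hij hi1 C hw
    have n1 := Tw.two_nn h hij hi1 C B (hw (i - 1) (by omega)) hp1 hp2
    have k1 := Tw.two_kc h hij hi1 t hp1 hp2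
    refine ⟨p, hp1, hp2, n1, f1, fun h3 => h.we_FU hij hi1 C hw h3 hp1 hp2, ?_⟩
    rw [e0]
    unfold shr
    rw [r5, r7, hp2, v5, v3, k1]
    unfold Wa
    dsimp only
    ring

/-- BOTH ENDS OPEN -/
theorem NJ.we_open (ha : 7 ≤ a) (C : Cp.Comp j (t : P) lo hi e) (hS : Shape j lo hi)
    (B : RowB P j t 2 x c β) (u0 : (uc (x 0)).card = 1) (u2 : (uc (x 2)).card = 1) :
    -4 ≤ V1a a i t ∧ ((∀ p ∈ PD P i, (topOf p : Tops P) ≠ t) → 0 ≤ V1a a i t) ∧
      (3 ≤ i → ∀ p ∈ PD P i, (topOf p : Tops P) = t →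
        4 * (2 - zc i (topOf : P → Tops P) p - kc p) ≤ V1a a i t + 4) := by
  obtain ⟨k1, k2, k3⟩ := Tw.open_ends h hij hi1 B C u0 u2
  have hc := h.card_SS (i := i) (by omega) C
  rcases NJ.we_two (a := a) h hij hi1 B C (by omega)
    (fun p hp ht => Tw.two_shape h hij hi1 C hS k1 k2 k3 hp ht) with
    ⟨g1, g2⟩ | ⟨p, hp, hpt, hn, hf, hf3, hv⟩
  · exact ⟨by linarith, fun _ => g2, fun _ p hp hpt => absurd hpt (g1 p hp)⟩
  · obtain ⟨b1, b2, b3, b4, b5⟩ := h.dt_ch_bd hij hi1 hp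
    have hf0 : (0 : ℤ) ≤ ((FU' i (SS i t)).card : ℤ) := by positivity
    have hf1 : ((FU' i (SS i t)).card : ℤ) ≤ 1 := by exact_mod_cast hf
    refine ⟨?_, fun g => absurd hpt (g p hp), fun h3 p' hp' hpt' => ?_⟩
    · rw [hv]
      exact We_arith2 ha b1 b2 b3 hf0 hf1 hn b5
    · rw [Pn.nj_hone h hij hi1 p' hp' p hp (hpt'.trans hpt.symm), hv, hf3 h3]
      push_cast
      exact We_arith2' ha b1 b2 b3 hn b5

end nj

end Pool.Agent.GaussPoset.Wd
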