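import Pool.Agent.W_448e_h22.WeB
import Pool.Agent.W_448kr_h10.KrA
import Pool.Agent.W_448s7s_h5.TwG

/-!
MP_448cb3_co, G2, case B, STEP 0 at the level 8: the rows with three sites and a defect, the windows
`j - 1` and `j`, the payments.  helper22.
-/

set_option autoImplicit false

namespace Pool.Agent.GaussPoset.EK

set_option linter.unusedSectionVars false

open Finset Win St Polynomial Wd Win.W4

universe u

variable {P : Type u} [Fintype P] [PartialOrder P] [DecidableEq P] {r i j : ℕ}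

variable {x : ℕ → P} {c : ℕ → ℤ} {β : ℤ} {t : Tops P} {lo hi : ℕ → ℕ} {e : ℕ → ℕ → P}

variable {K : Finset P} {psi : P → P} {Y V : P → P}

/-- the triangle at the window `j` -/
theorem NJ.val_tri (h : NJ P r j) (hj : 2 ≤ j) (B : RowB P j t 2 x c 2) (c0 : c 0 = -1)
    (c1 : c 1 = -1) : Pn.F3 j t = -3 ∧ Pn.F6 j t = 9 ∧ 20 ≤ Pn.F2 j t + Pn.F4 j t := by
  obtain ⟨K, psi, R⟩ := exists_red P j
  obtain ⟨v1, v2, w, w', p, T⟩ := NJ.tri h hj B c0 c1
  have h1 := NJ.tri_w3 h hj B c0 c1
  have h2 := T.c1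
  have h3 := T.be4_two
  have h6 := NJ.F6_small h hj R (NJ.small_two h hj B)
  have e3 : Pn.F3 j t = -3 := h1
  refine ⟨e3, ?_, ?_⟩
  · rw [h6, ← F3_eq, e3]
    norm_num
  · have e4 : Pn.F4 j t = Pn.F2 j t ^ 2 -
        2 * I2.be 4 (st j (cext (j + 1) (topOf : P → Tops P) t)).card
          (ZS j (cext (j + 1) (topOf : P → Tops P) t)) +
        2 * I2.c1 (st j (cext (j + 1) (topOf : P → Tops P) t)).card
          (ZS j (cext (j + 1) (topOf : P → Tops P) t)) * Pn.F3 j t := rfl
    rw [e3, h2] at e4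
    have h4 := sq_add_nonneg (Pn.F2 j t)
    rw [e4]
    linarith

/-- the payments of the single elements of a part with three sites: at most one value -/
lemma NJ.pc3_zero (h : NJ P r j) (hj : 2 ≤ j) (R : Red P j K psi) (hY : YV j Y V)
    (B : RowB P j t 2 x c β) (s0 : c 0 ≤ 1) (s1 : c 1 ≤ 1) (s2 : β ≤ 1) :
    ∑ z ∈ (PZ j K Y V).filter (fun z => topOf (V z) = t), (sz j K V z - 1) = 0 := by
  classical
  refine sum_eq_zero fun z hz => ?_
  rw [mem_filter] at hz
  obtain ⟨q, hq, h1, -, h2⟩ := NJ.PZ_V h hj R hY hz.1 hz.2 B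
  have h3 := (mem_PZ.1 hz.1).2.2
  obtain ⟨e0, e1, e2⟩ := NJ.sa_three h R B
  have h4 : q = 0 ∨ q = 1 ∨ q = 2 := by omega
  rcases h4 with rfl | rfl | rfl
  · rw [e0] at h2
    omega
  · rw [e1] at h2
    omega
  · rw [e2] at h2
    omega

/-- the payments of the single element of the triangle -/
lemma NJ.pc3_tri (h : NJ P r (i + 1)) (hi1 : 1 ≤ i) (R : Red P (i + 1) K psi)
    (hY : YV (i + 1) Y V) (B : RowB P (i + 1) t 2 x c 2) (c0 : c 0 = -1) (c1 : c 1 = -1) :
    ∑ z ∈ (PZ (i + 1) K Y V).filter (fun z => topOf (V z) = t), (sz (i + 1) K V z - 1) = 0 ∨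
      ∃ p ∈ PD P i, (topOf p : Tops P) = t ∧
        ∑ z ∈ (PZ (i + 1) K Y V).filter (fun z => topOf (V z) = t), (sz (i + 1) K V z - 1) ≤
          2 - Pn.zc i (topOf : P → Tops P) p - Pn.kc p := by
  classical
  have H := h.g.H
  obtain ⟨e0, e1, e2⟩ := NJ.sa_three h R B
  have a1 := (NJ.inner h rfl hi1 B).1 1 (by omega) (by omega)
  -- the joins
  have key : ∀ z ∈ (PZ (i + 1) K Y V).filter (fun z => topOf (V z) = t),
      V z ∈ PD P i ∧ sz (i + 1) K V z - 1 = 1 ∧ z ⋖ V z := by
    intro z hz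
    rw [mem_filter] at hz
    obtain ⟨q, hq, h1, h5, h2⟩ := NJ.PZ_V h (by omega) R hY hz.1 hz.2 B
    have h3 := (mem_PZ.1 hz.1).2.2
    have h4 : q = 0 ∨ q = 1 ∨ q = 2 := by omega
    rcases h4 with rfl | rfl | rfl
    · rw [e0] at h2
      omega
    · rw [e1] at h2
      obtain ⟨h6, h7⟩ := Win.mem_pen.1 h1
      have l1 := B.row.lev_x 1 (by omega)
      have l2 := lev_cov H h6
      exact ⟨mem_PD.2 ⟨by omega, h7, x 1, h6, a1⟩, by omega, h5⟩
    · rw [e2] at h2
      omega
  rcases eq_or_ne ((PZ (i + 1) K Y V).filter (fun z => topOf (V z) = t)) ∅ with hE | hE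
  · left
    rw [hE, Finset.sum_empty]
  · right
    obtain ⟨z0, hz0⟩ := nonempty_iff_ne_empty.2 hE
    obtain ⟨k1, -, -⟩ := key z0 hz0
    obtain ⟨p, hp⟩ : ∃ p, p = V z0 := ⟨_, rfl⟩
    rw [← hp] at k1
    have hpt : (topOf p : Tops P) = t := by rw [hp]; exact (mem_filter.1 hz0).2
    have hV : ∀ z ∈ (PZ (i + 1) K Y V).filter (fun z => topOf (V z) = t), V z = p := by
      intro z hz
      exact Pn.nj_hone h rfl hi1 _ (key z hz).1 p k1 ((mem_filter.1 hz).2.trans hpt.symm)
    refine ⟨p, k1, hpt, ?_⟩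
    rw [sum_congr rfl (fun z hz => (key z hz).2.1), sum_const, nsmul_eq_mul, mul_one]
    have hκ : Split (i + 2) (topOf : P → Tops P) := h.split
    have hS : ∀ z ∈ (PZ (i + 1) K Y V).filter (fun z => topOf (V z) = t),
        K2.SD (i + 1) (topOf : P → Tops P) z (Y z) (V z) := fun z hz =>
      hY z (mem_PZ.1 (mem_filter.1 hz).1).1
    have d1 : Disjoint ((PZ (i + 1) K Y V).filter (fun z => topOf (V z) = t))
        (Pn.zs i (topOf : P → Tops P) p) := by
      rw [disjoint_left]
      intro z hz hz'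
      obtain ⟨p1, p2, y1, y2, D, hu, hne⟩ := Pn.Z2s_pair H hκ (Pn.mem_zs.1 hz').1
      have S := hS z hz
      have h1 : Y z ∈ uc z := S.my
      have h2 := S.cy
      rw [hu, mem_insert, mem_singleton] at h1
      rcases h1 with h1 | h1
      · rw [h1, D.hp, card_singleton] at h2
        omega
      · rw [h1, D.hp', card_singleton] at h2
        omega
    have d2 : Disjoint ((PZ (i + 1) K Y V).filter (fun z => topOf (V z) = t) ∪
        Pn.zs i (topOf : P → Tops P) p) (Pn.ks p) := by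
      rw [disjoint_left]
      intro z hz hz'
      have h3 := Pn.mem_ks.1 hz'
      rcases mem_union.1 hz with hz | hz
      · have S := hS z hz
        have h1 := S.huc
        rw [h3] at h1
        have := congrArg Finset.card h1
        rw [card_pair S.ne, card_singleton] at this
        omega
      · obtain ⟨p1, p2, y1, y2, D, hu, hne⟩ := Pn.Z2s_pair H hκ (Pn.mem_zs.1 hz).1
        rw [hu] at h3
        have := congrArg Finset.card h3
        rw [card_pair hne, card_singleton] at this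
        omega
    have hsub : (PZ (i + 1) K Y V).filter (fun z => topOf (V z) = t) ∪
        Pn.zs i (topOf : P → Tops P) p ∪ Pn.ks p ⊆ dc p := by
      intro z hz
      rcases mem_union.1 hz with hz | hz
      · rcases mem_union.1 hz with hz | hz
        · rw [← hV z hz]
          exact mem_dc.2 (key z hz).2.2
        · exact mem_dc.2 (mem_uc.1 (Pn.mem_zs.1 hz).2)
      · exact mem_dc.2 (mem_uc.1 (by rw [Pn.mem_ks.1 hz]; exact mem_singleton_self _))
    have h7 := (card_le_card hsub).trans (dc_card_le H p)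
    rw [card_union_of_disjoint d2, card_union_of_disjoint d1] at h7
    unfold Pn.zc Pn.kc
    have : ((((PZ (i + 1) K Y V).filter (fun z => topOf (V z) = t)).card +
      (Pn.zs i (topOf : P → Tops P) p).card + (Pn.ks p).card : ℕ) : ℤ) ≤ 2 := by exact_mod_cast h7
    push_cast at this
    linarith

end Pool.Agent.GaussPoset.EK
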