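import Pool.Agent.W_448e_h22.WeC

/-!
MP_448cb3_co, G2, case B, STEP 0 at the level 8: the rows with three sites and a defect: THE END.
helper22.
-/

set_option autoImplicit false

namespace Pool.Agent.GaussPoset.EK

set_option linter.unusedSectionVars false

open Finset Win St Polynomial Wd Win.W4

universe u

variable {P : Type u} [Fintype P] [PartialOrder P] [DecidableEq P] {r i j : ℕ}

variable {x : ℕ → P} {c : ℕ → ℤ} {β : ℤ} {t : Tops P} {lo hi : ℕ → ℕ} {e : ℕ → ℕ → P}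

variable {K : Finset P} {psi : P → P} {Y V : P → P}

/-- twice the value of a part -/
lemma Uw_eq (a : ℤ) (i : ℕ) (t : Tops P) : 2 * Pn.own (Wa a) i (i + 1) t +
    ∑ p ∈ (PD P i).filter (fun p => (topOf p : Tops P) = t), Pn.shr (Wa a) i p =
      V1a a i t + 2 * (Pn.F2 (i + 1) t + Pn.F4 (i + 1) t + 6 * Pn.F3 (i + 1) t +
        2 * Pn.F6 (i + 1) t) := by
  unfold V1a own1 Pn.own Wa
  dsimp only
  ring

section rows

variable (h : NJ P r (i + 1)) (hi1 : 3 ≤ i) (C : Cp.Comp (i + 1) (t : P) lo hi e)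
  (hS : Shape (i + 1) lo hi) (R : Red P (i + 1) K psi) (hY : YV (i + 1) Y V)
  (B : RowB P (i + 1) t 2 x c β)

include h hi1 C hS R hY B

/-- the double elements pay nothing -/
lemma NJ.pa3_zero : PA (i + 1) K Y V t = 0 :=
  NJ.PA_zero h (by omega) R hY fun y hy ht => by
    have := B.bad h (by omega) hy ht
    omega

/-- [DL] with three sites -/
theorem NJ.dl2_e8 (hβ : β = 0) (c0 : c 0 = 1) (c1 : c 1 = -1) :
    4 * (PA (i + 1) K Y V t +
      ∑ z ∈ (PZ (i + 1) K Y V).filter (fun z => topOf (V z) = t), (sz (i + 1) K V z - 1)) ≤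
    2 * Pn.own (Wa 7) i (i + 1) t +
      ∑ p ∈ (PD P i).filter (fun p => (topOf p : Tops P) = t), Pn.shr (Wa 7) i p := by
  classical
  rw [Uw_eq, NJ.pa3_zero h hi1 C hS R hY B,
    NJ.pc3_zero h (by omega) R hY B (by omega) (by omega) (by omega)]
  obtain ⟨g3, g6, g24⟩ := NJ.val_dl2 h (by omega) B hβ c0 c1
  obtain ⟨w, v, D⟩ := NJ.dl2 h (by omega) R B hβ c0 c1
  have W := D.W
  have hp : 1 ≤ (pen (x 2)).card := by
    have D2 := W.deg (k := 2) (by omega)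
    have d21 := kf_dcv_comm (x 2) (x 1)
    have d20 := kf_dcv_comm (x 2) (x 0)
    rw [D.d12] at d21
    rw [D.d02] at d20
    rw [(sum_er3 _).2.2, d20, d21] at D2
    have hl := W.lev_x 2 (by omega)
    have hr := h.hr
    obtain ⟨z, hz⟩ := dc_nonempty h.g.H (x := x 2) (by omega)
    have h5 := card_pos.2 ⟨z, hz⟩
    omega
  have hp' : (1 : ℤ) ≤ (pen (x 2)).card := by exact_mod_cast hp
  have hV : -4 ≤ V1a 7 i t := by
    by_cases hu : (uc (x 0)).card = 1 ∧ (uc (x 2)).card = 1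
    · exact (NJ.we_open h rfl (by omega) le_rfl C hS B hu.1 hu.2).1
    · have := NJ.we_closed h rfl (by omega) B c0 c1 (a := 7) le_rfl hu
      linarith
  rw [g3, g6]
  linarith

/-- R with three sites -/
theorem NJ.r2_e8 (hβ : β = 1) (c0 : c 0 = -1) (c1 : c 1 = 0) :
    4 * (PA (i + 1) K Y V t +
      ∑ z ∈ (PZ (i + 1) K Y V).filter (fun z => topOf (V z) = t), (sz (i + 1) K V z - 1)) ≤
    2 * Pn.own (Wa 7) i (i + 1) t +
      ∑ p ∈ (PD P i).filter (fun p => (topOf p : Tops P) = t), Pn.shr (Wa 7) i p := by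
  classical
  rw [Uw_eq, NJ.pa3_zero h hi1 C hS R hY B,
    NJ.pc3_zero h (by omega) R hY B (by omega) (by omega) (by omega)]
  obtain ⟨g3, g6, g24⟩ := NJ.val_r2 h (by omega) B hβ c0 c1
  obtain ⟨u0, u2⟩ := B.ends (by rw [hβ]; norm_num)
  obtain ⟨k1, k2, -⟩ := NJ.we_open (a := 7) h rfl (by omega) le_rfl C hS B u0 u2
  rw [g3, g6]
  rcases eq_or_ne (pen (x 1)) ∅ with hp | hp
  · have h3 := k2 (by
      intro p hp1 hp2
      obtain ⟨k, hk, e1, e2, e3⟩ := NJ.dt_pd_row h rfl (by omega) B hp1 hp2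
      have h4 : k = 0 ∨ k = 1 ∨ k = 2 := by omega
      rcases h4 with rfl | rfl | rfl
      · omega
      · rw [hp] at e3
        exact notMem_empty _ e3
      · omega)
    rw [hp, card_empty] at g24
    push_cast at g24
    linarith
  · have h3 : 1 ≤ (pen (x 1)).card := card_pos.2 (nonempty_iff_ne_empty.2 hp)
    have h4 : (1 : ℤ) ≤ (pen (x 1)).card := by exact_mod_cast h3
    linarith

/-- the triangle -/
theorem NJ.rr_e8 (hβ : β = 2) (c0 : c 0 = -1) (c1 : c 1 = -1) :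
    4 * (PA (i + 1) K Y V t +
      ∑ z ∈ (PZ (i + 1) K Y V).filter (fun z => topOf (V z) = t), (sz (i + 1) K V z - 1)) ≤
    2 * Pn.own (Wa 7) i (i + 1) t +
      ∑ p ∈ (PD P i).filter (fun p => (topOf p : Tops P) = t), Pn.shr (Wa 7) i p := by
  classical
  rw [Uw_eq, NJ.pa3_zero h hi1 C hS R hY B, zero_add]
  obtain ⟨u0, u2⟩ := B.ends (by rw [hβ]; norm_num)
  obtain ⟨k1, -, k3⟩ := NJ.we_open (a := 7) h rfl (by omega) le_rfl C hS B u0 u2
  subst hβ
  obtain ⟨g3, g6, g24⟩ := NJ.val_tri h (by omega) B c0 c1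
  rw [g3, g6]
  rcases NJ.pc3_tri h (by omega) R hY B c0 c1 with h0 | ⟨p, hp, hpt, h0⟩
  · rw [h0]
    linarith
  · have := k3 hi1 p hp hpt
    linarith

/-- THE ROWS WITH THREE SITES AND A DEFECT: every part pays -/
theorem NJ.three_e8 (hd : ¬ (β = 0 ∧ ∀ k, k < 2 → c k = 0)) :
    4 * (PA (i + 1) K Y V t +
      ∑ z ∈ (PZ (i + 1) K Y V).filter (fun z => topOf (V z) = t), (sz (i + 1) K V z - 1)) ≤
    2 * Pn.own (⟨-1, 7, 1, 2, 1, 1, 1, 6, 2⟩ : Pn.Wt) i (i + 1) t +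
      ∑ p ∈ (PD P i).filter (fun p => (topOf p : Tops P) = t),
        Pn.shr (⟨-1, 7, 1, 2, 1, 1, 1, 6, 2⟩ : Pn.Wt) i p := by
  have key : 4 * (PA (i + 1) K Y V t +
      ∑ z ∈ (PZ (i + 1) K Y V).filter (fun z => topOf (V z) = t), (sz (i + 1) K V z - 1)) ≤
    2 * Pn.own (Wa 7) i (i + 1) t +
      ∑ p ∈ (PD P i).filter (fun p => (topOf p : Tops P) = t), Pn.shr (Wa 7) i p := by
    rcases B.pat with p1 | ⟨-, p1, p2, p3⟩ | ⟨-, p1, p2, p3⟩ | ⟨-, p1, p2, p3, p4⟩ |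
      ⟨-, p1, p2, p3, p4⟩ | p1 | ⟨-, p1, p2, p3⟩ | p1
    · exact absurd p1 hd
    · exact NJ.r2_e8 h hi1 C hS R hY B p1 p2 (p3 1 le_rfl (by omega))
    · exact NJ.r2_e8 h hi1 C hS R hY B.rev p1 p2 (p3 0 (by omega))
    · exact NJ.dl2_e8 h hi1 C hS R hY B p1 p2 p3
    · exact NJ.dl2_e8 h hi1 C hS R hY B.rev p1 p2 p3
    · have := p1.1
      omega
    · exact NJ.rr_e8 h hi1 C hS R hY B p1 p2 p3
    · have := p1.1
      omega
  exact key

end rows

end Pool.Agent.GaussPoset.EK
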