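import Pool.Agent.W_448e_h22.WeD

/-!
MP_448cb3_co, G2, case B, STEP 0 at the level 8: the rows with three sites and a defect, the functional
`⟨-1, 7, 1, 2, 1, 1, 1, 7, 1⟩` (counting theorem): the value is nonnegative, or at least `-4` (twice)
with (3,2) equal to `-1` and light joins.  helper22.
-/

set_option autoImplicit false

namespace Pool.Agent.GaussPoset.EK

set_option linter.unusedSectionVars false

open Finset Win St Polynomial Wd Win.W4

universe u

variable {P : Type u} [Fintype P] [PartialOrder P] [DecidableEq P] {r i j : ℕ}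

variable {x : ℕ → P} {c : ℕ → ℤ} {β : ℤ} {t : Tops P} {lo hi : ℕ → ℕ} {e : ℕ → ℕ → P}

variable {K : Finset P} {psi : P → P}

/-- the weights of the counting argument at the level 8 -/
def Wct : Pn.Wt := ⟨-1, 7, 1, 2, 1, 1, 1, 7, 1⟩

/-- twice the value of a part -/
lemma Uc_eq (i : ℕ) (t : Tops P) : 2 * Pn.own Wct i (i + 1) t +
    ∑ p ∈ (PD P i).filter (fun p => (topOf p : Tops P) = t), Pn.shr Wct i p =
      V1a 7 i t + 2 * (Pn.F2 (i + 1) t + Pn.F4 (i + 1) t + 7 * Pn.F3 (i + 1) t +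
        Pn.F6 (i + 1) t) := by
  have e1 : ∑ p ∈ (PD P i).filter (fun p => (topOf p : Tops P) = t), Pn.shr Wct i p =
      ∑ p ∈ (PD P i).filter (fun p => (topOf p : Tops P) = t), Pn.shr (Wa 7) i p := rfl
  rw [e1]
  unfold V1a own1 Pn.own Wa Wct
  dsimp only
  ring

/-- [DL] with three sites, with the ends -/
theorem NJ.val_dl2s (h : NJ P r j) (hj : 2 ≤ j) (B : RowB P j t 2 x c β) (hβ : β = 0)
    (c0 : c 0 = 1) (c1 : c 1 = -1) :
    4 + 2 * ((pen (x 2)).card : ℤ) + 4 * ((uc (x 0)).card - 1) + 2 * ((uc (x 2)).card - 1) ≤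
      Pn.F2 j t + Pn.F4 j t := by
  obtain ⟨K, psi, R⟩ := exists_red P j
  obtain ⟨w, v, D⟩ := NJ.dl2 h hj R B hβ c0 c1
  have W := D.W
  have n02 : x 0 ≠ x 2 := W.ne (by omega) (by omega) (by omega)
  have n01 : x 0 ≠ x 1 := W.ne (by omega) (by omega) (by omega)
  have n12 : x 1 ≠ x 2 := W.ne (by omega) (by omega) (by omega)
  have h3 := D.Q.three_w3 D.hw D.hv n01 n12 n02 W.st_three
  have hT := D.rest_ge (D.Q.T_three_ge D.hw D.hv n01 n12 n02 W.st_three)
  rw [F24_eq]
  unfold W4.Tv at hT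
  rw [h3] at hT
  linarith

section rows

variable (h : NJ P r (i + 1)) (hi1 : 3 ≤ i) (C : Cp.Comp (i + 1) (t : P) lo hi e)
  (hS : Shape (i + 1) lo hi) (R : Red P (i + 1) K psi) (B : RowB P (i + 1) t 2 x c β)

include h hi1 C hS R B

/-- [DL] with three sites -/
theorem NJ.dl2_c8 (hβ : β = 0) (c0 : c 0 = 1) (c1 : c 1 = -1) :
    0 ≤ 2 * Pn.own Wct i (i + 1) t +
      ∑ p ∈ (PD P i).filter (fun p => (topOf p : Tops P) = t), Pn.shr Wct i p := by
  classical
  rw [Uc_eq]
  obtain ⟨g3, g6, -⟩ := NJ.val_dl2 h (by omega) B hβ c0 c1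
  have g24 := NJ.val_dl2s h (by omega) B hβ c0 c1
  obtain ⟨w, v, D⟩ := NJ.dl2 h (by omega) R B hβ c0 c1
  have W := D.W
  have hp : 1 ≤ (pen (x 2)).card := by
    have D2 := W.deg (k := 2) (by omega)
    have d21 := kf_dcv_comm (x 2) (x 1)
    have d20 := kf_dcv_comm (x 2) (x 0)
    rw [D.d12] at d21
    rw [D.d02] at d20
    rw [(sum_er3 _).2.2, d20, d21] at D2
    have hl := W.lev_x 2 (by omega)
    have hr := h.hr
    obtain ⟨z, hz⟩ := dc_nonempty h.g.H (x := x 2) (by omega)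
    have h5 := card_pos.2 ⟨z, hz⟩
    omega
  have hp' : (1 : ℤ) ≤ (pen (x 2)).card := by exact_mod_cast hp
  have U0 := W.uc_le (k := 0) (by omega)
  have U2 := W.uc_le (k := 2) (by omega)
  have U0' : (1 : ℤ) ≤ (uc (x 0)).card := by
    have : 1 ≤ (uc (x 0)).card := by omega
    exact_mod_cast this
  have U2' : (1 : ℤ) ≤ (uc (x 2)).card := by
    have : 1 ≤ (uc (x 2)).card := by omega
    exact_mod_cast this
  rw [g3, g6]
  by_cases hu : (uc (x 0)).card = 1 ∧ (uc (x 2)).card = 1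
  · have hV := (NJ.we_open (a := 7) h rfl (by omega) le_rfl C hS B hu.1 hu.2).2.1 (by
      intro p hp1 hp2
      have := (NJ.dl_pd h rfl (by omega) B c0 hp1 hp2).2
      omega)
    linarith
  · have hV := NJ.we_closed h rfl (by omega) B c0 c1 (a := 7) le_rfl hu
    have h9 : (3 : ℤ) ≤ (uc (x 0)).card + (uc (x 2)).card := by
      have : 3 ≤ (uc (x 0)).card + (uc (x 2)).card := by omega
      exact_mod_cast this
    linarith

/-- R with three sites -/
theorem NJ.r2_c8 (hβ : β = 1) (c0 : c 0 = -1) (c1 : c 1 = 0) :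
    0 ≤ 2 * Pn.own Wct i (i + 1) t +
      ∑ p ∈ (PD P i).filter (fun p => (topOf p : Tops P) = t), Pn.shr Wct i p ∨
    (-4 ≤ 2 * Pn.own Wct i (i + 1) t +
      ∑ p ∈ (PD P i).filter (fun p => (topOf p : Tops P) = t), Pn.shr Wct i p ∧
      Pn.F3 (i + 1) t = -1 ∧
      ∀ z y v : P, K2.SD (i + 1) (topOf : P → Tops P) z y v → topOf v = t →
        sa (i + 1) (topOf : P → Tops P) K (uc v) (topOf v) = 0) := by
  classical
  have H := h.g.H
  rw [Uc_eq]
  obtain ⟨g3, g6, g24⟩ := NJ.val_r2 h (by omega) B hβ c0 c1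
  obtain ⟨u0, u2⟩ := B.ends (by rw [hβ]; norm_num)
  obtain ⟨k1, k2, k3⟩ := NJ.we_open (a := 7) h rfl (by omega) le_rfl C hS B u0 u2
  have a1 := (NJ.inner h rfl (by omega) B).1 1 (by omega) (by omega)
  rw [g6]
  by_cases hH : ∀ z y v : P, K2.SD (i + 1) (topOf : P → Tops P) z y v → topOf v = t →
      sa (i + 1) (topOf : P → Tops P) K (uc v) (topOf v) = 0
  · right
    refine ⟨?_, g3, hH⟩
    rw [g3]
    rcases eq_or_ne (pen (x 1)) ∅ with hp | hp
    · have h3 := k2 (by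
        intro p hp1 hp2
        obtain ⟨k, hk, e1, e2, e3⟩ := NJ.dt_pd_row h rfl (by omega) B hp1 hp2
        have h4 : k = 0 ∨ k = 1 ∨ k = 2 := by omega
        rcases h4 with rfl | rfl | rfl
        · omega
        · rw [hp] at e3
          exact notMem_empty _ e3
        · omega)
      rw [hp, card_empty] at g24
      push_cast at g24
      linarith
    · have h3 : 1 ≤ (pen (x 1)).card := card_pos.2 (nonempty_iff_ne_empty.2 hp)
      have h4 : (1 : ℤ) ≤ (pen (x 1)).card := by exact_mod_cast h3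
      linarith
  · left
    push Not at hH
    obtain ⟨z, y, v, S, ht, hne⟩ := hH
    have hlv := S.lv' H
    have hpos := NJ.sa_single h (by omega) R hlv S.cv
    obtain ⟨s, hs⟩ := card_eq_one.1 S.cv
    have hsv : s ∈ uc v := by rw [hs]; exact mem_singleton_self _
    have hls := lev_uc H hsv
    have hts : topOf v = topOf s := h.split (mem_uc.1 hsv) (by omega)
    obtain ⟨q, hq, rfl⟩ := B.row.surj s (by omega) (hts.symm.trans ht)
    obtain ⟨s0, s1, s2⟩ := NJ.sa_three h R B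
    rw [hs, ht] at hpos hne
    have hq1 : q = 1 := by
      have h3 : q = 0 ∨ q = 1 ∨ q = 2 := by omega
      rcases h3 with rfl | rfl | rfl
      · rw [s0, c1] at hne
        exact absurd rfl hne
      · rfl
      · rw [s2, c0] at hpos
        norm_num at hpos
    subst hq1
    have hvp : v ∈ pen (x 1) := Win.mem_pen.2 ⟨mem_uc.1 hsv, S.cv⟩
    have hvD : v ∈ PD P i := mem_PD.2 ⟨by omega, S.cv, x 1, mem_uc.1 hsv, a1⟩
    have hzv : z ∈ dc v := mem_dc.2 (mem_uc.1 S.mv)
    -- the children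
    have hκ : Split (i + 2) (topOf : P → Tops P) := h.split
    have d1 : z ∉ Pn.zs i (topOf : P → Tops P) v := by
      intro hz'
      obtain ⟨p1, p2, y1, y2, D, hu, hne'⟩ := Pn.Z2s_pair H hκ (Pn.mem_zs.1 hz').1
      have h1 : y ∈ uc z := S.my
      have h2 := S.cy
      rw [hu, mem_insert, mem_singleton] at h1
      rcases h1 with h1 | h1
      · rw [h1, D.hp, card_singleton] at h2
        omega
      · rw [h1, D.hp', card_singleton] at h2
        omega
    have d2 : z ∉ Pn.ks v := by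
      intro hz'
      have h3 := Pn.mem_ks.1 hz'
      have h1 := S.huc
      rw [h3] at h1
      have := congrArg Finset.card h1
      rw [card_pair S.ne, card_singleton] at this
      omega
    have d3 : Disjoint (Pn.zs i (topOf : P → Tops P) v) (Pn.ks v) := by
      rw [disjoint_left]
      intro a ha ha'
      have h3 := Pn.mem_ks.1 ha'
      obtain ⟨p1, p2, y1, y2, D, hu, hne'⟩ := Pn.Z2s_pair H hκ (Pn.mem_zs.1 ha).1
      rw [hu] at h3
      have := congrArg Finset.card h3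
      rw [card_pair hne', card_singleton] at this
      omega
    have hsub : insert z (Pn.zs i (topOf : P → Tops P) v ∪ Pn.ks v) ⊆ dc v := by
      intro a ha
      rcases mem_insert.1 ha with rfl | ha
      · exact hzv
      rcases mem_union.1 ha with ha | ha
      · exact mem_dc.2 (mem_uc.1 (Pn.mem_zs.1 ha).2)
      · exact mem_dc.2 (mem_uc.1 (by rw [Pn.mem_ks.1 ha]; exact mem_singleton_self _))
    have h7 := (card_le_card hsub).trans (dc_card_le H v)
    rw [card_insert_of_notMem (by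
      rw [mem_union]
      rintro (k | k)
      · exact d1 k
      · exact d2 k), card_union_of_disjoint d3] at h7
    have h8 : Pn.zc i (topOf : P → Tops P) v + Pn.kc v ≤ 1 := by
      unfold Pn.zc Pn.kc
      have : (((Pn.zs i (topOf : P → Tops P) v).card + (Pn.ks v).card + 1 : ℕ) : ℤ) ≤ 2 := by
        exact_mod_cast h7
      push_cast at this
      linarith
    have h9 := k3 hi1 v hvD ht
    have h10 : (1 : ℤ) ≤ (pen (x 1)).card := by
      have : 1 ≤ (pen (x 1)).card := card_pos.2 ⟨v, hvp⟩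
      exact_mod_cast this
    rw [g3]
    linarith

/-- the triangle -/
theorem NJ.rr_c8 (hβ : β = 2) (c0 : c 0 = -1) (c1 : c 1 = -1) :
    12 ≤ 2 * Pn.own Wct i (i + 1) t +
      ∑ p ∈ (PD P i).filter (fun p => (topOf p : Tops P) = t), Pn.shr Wct i p := by
  classical
  rw [Uc_eq]
  obtain ⟨u0, u2⟩ := B.ends (by rw [hβ]; norm_num)
  obtain ⟨k1, -, -⟩ := NJ.we_open (a := 7) h rfl (by omega) le_rfl C hS B u0 u2
  subst hβ
  obtain ⟨g3, g6, g24⟩ := NJ.val_tri h (by omega) B c0 c1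
  rw [g3, g6]
  linarith

/-- THE ROWS WITH THREE SITES AND A DEFECT -/
theorem NJ.three_c8 (hd : ¬ (β = 0 ∧ ∀ k, k < 2 → c k = 0)) :
    0 ≤ 2 * Pn.own (⟨-1, 7, 1, 2, 1, 1, 1, 7, 1⟩ : Pn.Wt) i (i + 1) t +
      ∑ p ∈ (PD P i).filter (fun p => (topOf p : Tops P) = t),
        Pn.shr (⟨-1, 7, 1, 2, 1, 1, 1, 7, 1⟩ : Pn.Wt) i p ∨
    (-4 ≤ 2 * Pn.own (⟨-1, 7, 1, 2, 1, 1, 1, 7, 1⟩ : Pn.Wt) i (i + 1) t +
      ∑ p ∈ (PD P i).filter (fun p => (topOf p : Tops P) = t),
        Pn.shr (⟨-1, 7, 1, 2, 1, 1, 1, 7, 1⟩ : Pn.Wt) i p ∧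
      Pn.F3 (i + 1) t = -1 ∧
      (st (i + 1) (cext (i + 1 + 1) (topOf : P → Tops P) t)).card ≤ 3 ∧
      ∀ z y v : P, K2.SD (i + 1) (topOf : P → Tops P) z y v → topOf v = t →
        sa (i + 1) (topOf : P → Tops P) K (uc v) (topOf v) = 0) := by
  have hst : (st (i + 1) (cext (i + 1 + 1) (topOf : P → Tops P) t)).card ≤ 3 := by
    have h5 : st (i + 1) (cext (i + 1 + 1) (topOf : P → Tops P) t) ⊆ (range 3).image x := by
      intro v hv
      rw [mem_sites h.split] at hv
      obtain ⟨k, hk, rfl⟩ := B.row.surj v hv.1 hv.2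
      exact mem_image_of_mem x (mem_range.2 (by omega))
    have h6 := (card_le_card h5).trans card_image_le
    rwa [card_range] at h6
  have key : 0 ≤ 2 * Pn.own Wct i (i + 1) t +
      ∑ p ∈ (PD P i).filter (fun p => (topOf p : Tops P) = t), Pn.shr Wct i p ∨
    (-4 ≤ 2 * Pn.own Wct i (i + 1) t +
      ∑ p ∈ (PD P i).filter (fun p => (topOf p : Tops P) = t), Pn.shr Wct i p ∧
      Pn.F3 (i + 1) t = -1 ∧
      ∀ z y v : P, K2.SD (i + 1) (topOf : P → Tops P) z y v → topOf v = t →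
        sa (i + 1) (topOf : P → Tops P) K (uc v) (topOf v) = 0) := by
    rcases B.pat with p1 | ⟨-, p1, p2, p3⟩ | ⟨-, p1, p2, p3⟩ | ⟨-, p1, p2, p3, p4⟩ |
      ⟨-, p1, p2, p3, p4⟩ | p1 | ⟨-, p1, p2, p3⟩ | p1
    · exact absurd p1 hd
    · exact NJ.r2_c8 h hi1 C hS R B p1 p2 (p3 1 le_rfl (by omega))
    · exact NJ.r2_c8 h hi1 C hS R B.rev p1 p2 (p3 0 (by omega))
    · exact Or.inl (NJ.dl2_c8 h hi1 C hS R B p1 p2 p3)
    · exact Or.inl (NJ.dl2_c8 h hi1 C hS R B.rev p1 p2 p3)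
    · have := p1.1
      omega
    · left
      have := NJ.rr_c8 h hi1 C hS R B p1 p2 p3
      linarith
    · have := p1.1
      omega
  rcases key with k | ⟨k1, k2, k3⟩
  · exact Or.inl k
  · exact Or.inr ⟨k1, k2, hst, k3⟩

end rows

end Pool.Agent.GaussPoset.EK
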